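import Pool.Agent.H48.RG.Targets

/-! Partial regularity of stationary harmonic maps (MP_2697e3_an), part D, row DE1: the gradient
part. -/

set_option autoImplicit false

namespace Pool.Agent.H50.RG

open MeasureTheory Metric Set Filter Topology Pool.Agent.H87.SN Pool.Agent.H48.RG
open scoped ContDiff RealInnerProductSpace ENNReal

section aux

variable {n : ℕ}

theorem inner_grad (f : E n → ℝ) (x v : E n) : ⟪gradient f x, v⟫ = fderiv ℝ f x v := by
  unfold gradient
  exact InnerProductSpace.toDual_symm_apply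

theorem cont_grad {f : E n → ℝ} (hf : ContDiff ℝ ∞ f) : Continuous (gradient f) := by
  unfold gradient
  exact ((InnerProductSpace.toDual ℝ (E n)).symm.continuous).comp
    (hf.continuous_fderiv (by simp))

theorem grad_off {f : E n → ℝ} {ρ : ℝ} (hs : tsupport f ⊆ closedBall (0 : E n) ρ) (x : E n)
    (hx : x ∉ closedBall (0 : E n) ρ) : f x = 0 ∧ gradient f x = 0 := by
  have h1 : x ∉ tsupport f := fun h => hx (hs h)
  refine ⟨image_eq_zero_of_notMem_tsupport h1, ?_⟩
  have h2 : fderiv ℝ f x = 0 := by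
    by_contra h
    exact h1 (support_fderiv_subset ℝ (by simpa using h))
  unfold gradient
  rw [h2, map_zero]

theorem cpt_of {f : E n → ℝ} {ρ : ℝ} (hs : tsupport f ⊆ closedBall (0 : E n) ρ) :
    HasCompactSupport f :=
  (isCompact_closedBall (0 : E n) ρ).of_isClosed_subset (isClosed_tsupport f) hs

theorem tst_fd {U : Set (E n)} {φ : E n → ℝ} (h : Tst U φ) (v : E n) :
    Continuous (fun x => fderiv ℝ φ x v) ∧ HasCompactSupport (fun x => fderiv ℝ φ x v) :=
  ⟨(h.1.continuous_fderiv (by simp)).clm_apply continuous_const, h.2.1.fderiv_apply ℝ v⟩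

/-- the integral of a derivative -/
theorem int_fd {U : Set (E n)} {φ : E n → ℝ} (h : Tst U φ) (v : E n) :
    ∫ x, fderiv ℝ φ x v = 0 := by
  obtain ⟨h1, h2⟩ := tst_fd h v
  have h3 := integral_mul_fderiv_eq_neg_fderiv_mul_of_integrable (μ := (volume : Measure (E n)))
    (f := fun _ : E n => (1 : ℝ)) (g := φ) (v := v)
    (by
      have : (fun x : E n => (fderiv ℝ (fun _ : E n => (1 : ℝ)) x) v * φ x) = fun _ => 0 := by
        funext x; simp
      rw [this]; exact integrable_zero _ _ _)
    (by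
      simp only [one_mul]
      exact h1.integrable_of_hasCompactSupport h2)
    (by
      simp only [one_mul]
      exact h.1.continuous.integrable_of_hasCompactSupport h.2.1)
    (fun x _ => differentiableAt_const _)
    (fun x _ => (h.1.differentiable (by simp)) x)
  simpa using h3

theorem wb_mono {U V : Set (E n)} (h : V ⊆ U) {f : E n → ℝ} {D : E n → E n} (hf : WB U f D) :
    WB V f D where
  ms := hf.ms.mono_measure (Measure.restrict_mono h le_rfl)
  bd := by
    obtain ⟨B, hB⟩ := hf.bd
    exact ⟨B, ae_mono (Measure.restrict_mono h le_rfl) hB⟩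
  d2 := hf.d2.mono_measure (Measure.restrict_mono h le_rfl)
  wg := fun φ hφ v => hf.wg φ ⟨hφ.1, hφ.2.1, hφ.2.2.trans h⟩ v

/-- smooth functions -/
theorem wc_smooth {ρ A : ℝ} {a : E n → ℝ} (ha : ContDiff ℝ ∞ a)
    (hs : tsupport a ⊆ closedBall (0 : E n) ρ) (hA : ∀ x, |a x| ≤ A) : WC ρ a (gradient a) := by
  have hc := cpt_of hs
  refine ⟨⟨ha.continuous.aestronglyMeasurable, ⟨A, Eventually.of_forall hA⟩, ?_, ?_⟩,
    grad_off hs⟩
  · rw [Measure.restrict_univ]
    refine (cont_grad ha).memLp_of_hasCompactSupport ?_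
    refine HasCompactSupport.of_support_subset_isCompact (isCompact_closedBall (0 : E n) ρ) ?_
    intro x hx
    by_contra h
    exact hx (grad_off hs x h).2
  · intro φ hφ v
    have h1 := tst_fd hφ v
    have hat : Tst univ a := ⟨ha, hc, subset_univ _⟩
    have h2 := tst_fd hat v
    have h3 := integral_mul_fderiv_eq_neg_fderiv_mul_of_integrable
      (μ := (volume : Measure (E n))) (f := φ) (g := a) (v := v)
      ((h1.1.mul ha.continuous).integrable_of_hasCompactSupport h1.2.mul_right)
      ((hφ.1.continuous.mul h2.1).integrable_of_hasCompactSupport hφ.2.1.mul_right)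
      ((hφ.1.continuous.mul ha.continuous).integrable_of_hasCompactSupport hφ.2.1.mul_right)
      (fun x _ => (hφ.1.differentiable (by simp)) x)
      (fun x _ => (ha.differentiable (by simp)) x)
    simp only [inner_grad]
    linarith

/-- products of bounded functions and test functions are integrable -/
theorem int_tst {U : Set (E n)} (hU : MeasurableSet U) {ψ f : E n → ℝ} (hψ : Continuous ψ)
    (hc : HasCompactSupport ψ) (hs : ∀ x, x ∉ U → ψ x = 0)
    (hf : AEStronglyMeasurable f (volume.restrict U))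
    (hb : ∃ B : ℝ, ∀ᵐ x ∂(volume.restrict U), |f x| ≤ B) : Integrable (fun x => ψ x * f x) := by
  obtain ⟨B, hB⟩ := hb
  have h1 : IntegrableOn (fun x => ψ x * f x) U := by
    refine Integrable.mul_bdd (c := B) ?_ hf ?_
    · exact (hψ.integrable_of_hasCompactSupport hc).integrableOn
    · filter_upwards [hB] with x hx
      rwa [Real.norm_eq_abs]
  refine (integrableOn_iff_integrable_of_support_subset ?_).1 h1
  intro x hx
  by_contra h
  exact hx (by show ψ x * f x = 0; rw [hs x h, zero_mul])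

/-- subtraction of a constant -/
theorem wb_sub {U : Set (E n)} (hU : MeasurableSet U) {f : E n → ℝ} {D : E n → E n}
    (hf : WB U f D) (c : ℝ) : WB U (fun x => f x - c) D where
  ms := hf.ms.sub aestronglyMeasurable_const
  bd := by
    obtain ⟨B, hB⟩ := hf.bd
    refine ⟨B + |c|, ?_⟩
    filter_upwards [hB] with x hx
    exact (abs_sub _ _).trans (by linarith)
  d2 := hf.d2
  wg := by
    intro φ hφ v
    have h1 := tst_fd hφ v
    have h2 : ∀ x, x ∉ U → fderiv ℝ φ x v = 0 := by
      intro x hx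
      have h3 : fderiv ℝ φ x = 0 := by
        by_contra h
        exact hx (hφ.2.2 (support_fderiv_subset ℝ (by simpa using h)))
      rw [h3]; rfl
    have i1 := int_tst hU h1.1 h1.2 h2 hf.ms hf.bd
    have i2 : Integrable (fun x => fderiv ℝ φ x v * c) :=
      (h1.1.integrable_of_hasCompactSupport h1.2).mul_const c
    have e : ∀ x, fderiv ℝ φ x v * (f x - c) = fderiv ℝ φ x v * f x - fderiv ℝ φ x v * c :=
      fun x => by ring
    simp only [e]
    rw [integral_sub i1 i2, integral_mul_const, int_fd hφ v, zero_mul, sub_zero]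
    exact hf.wg φ hφ v

theorem int_inner {μ : Measure (E n)} {f g : E n → E n} (hf : MemLp f 2 μ) (hg : MemLp g 2 μ) :
    Integrable (fun x => ⟪f x, g x⟫) μ := by
  have h1 : Integrable (fun x => ‖f x‖ * ‖g x‖) μ := hf.norm.integrable_mul hg.norm
  refine h1.mono (hf.aestronglyMeasurable.inner hg.aestronglyMeasurable) ?_
  filter_upwards with x
  show |⟪f x, g x⟫| ≤ |‖f x‖ * ‖g x‖|
  rw [abs_of_nonneg (mul_nonneg (norm_nonneg (f x)) (norm_nonneg (g x)))]
  exact abs_real_inner_le_norm _ _

theorem wc_mono {ρ ρ' : ℝ} (h : ρ ≤ ρ') {f : E n → ℝ} {D : E n → E n} (hf : WC ρ f D) :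
    WC ρ' f D :=
  ⟨hf.wb, fun x hx => hf.off x fun hx' => hx (closedBall_subset_closedBall h hx')⟩

end aux

theorem pf_DE1 (hC : T_CF0) (hTr : T_TRI) (hM : T_MOB) (hE : T_EXT) (hL : T_LEI) (hI : T_IBG)
    (hG : T_GEQ) (hW : T_WWP) : T_DE1 := by
  intro n m K A hn hK hA
  obtain ⟨ζ, B, hB, hζ⟩ := hC n
  obtain ⟨C₁, hC₁, hmob⟩ := hM n ζ B hn hB hζ
  obtain ⟨C₂, hC₂, htri⟩ := hTr n hn
  set Q : ℝ := m ^ 3 * K ^ 2 with hQ
  have hQ0 : 0 ≤ Q := by positivity
  set S : ℝ := 8 * A ^ 2 * Q + 2 * A with hS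
  have hS0 : 0 ≤ S := by positivity
  refine ⟨m * (m * (C₂ * C₁ * Real.sqrt Q * Real.sqrt S)), by positivity, ?_⟩
  intro u D Om P DP M e hsys hgau hM0 hmor he0 he1 hen a ha has haA hag j
  set U : Set (E n) := ball (0 : E n) 1 with hU
  have hUm : MeasurableSet U := measurableSet_ball
  obtain ⟨hae, hww, hEE, -, hOm⟩ := hW n m K u D Om P DP hsys hgau
  have hsum : 0 ≤ ∑ k, ∫ x in U, ‖D k x‖ ^ 2 :=
    Finset.sum_nonneg fun k _ => integral_nonneg fun x => by positivity
  have hOm2 : ∑ i, ∑ j, ∫ x in U, ‖Om i j x‖ ^ 2 ≤ Q * e ^ 2 :=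
    hOm.trans (mul_le_mul_of_nonneg_left hen hQ0)
  have haw : WC (3 / 4) a (gradient a) := wc_smooth ha has haA
  have haU : WB U a (gradient a) := wb_mono (subset_univ _) haw.wb
  -- the equation
  have hgeq := hG n m K u D Om P DP hsys hgau (3 / 4) a (gradient a) j (by norm_num)
    (by norm_num) haw
  have hP1 : ∀ k i, WB U (P k i) (DP k i) := fun k i => hgau.wb k i
  have hprod : ∀ k i, WB U (fun x => a x * P k i x)
      (fun x => a x • DP k i x + P k i x • gradient a x) :=
    fun k i => hL n a (P k i) (gradient a) (DP k i) haU (hP1 k i)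
  have hin : ∀ k i, Integrable (fun x => a x * P k i x * ⟪EE P DP Om j i x, D k x⟫)
      (volume.restrict U) := by
    intro k i
    obtain ⟨b, hb⟩ := (hprod k i).bd
    refine Integrable.bdd_mul (c := b) (int_inner (hEE j i) (hsys.wb k).d2) (hprod k i).ms ?_
    filter_upwards [hb] with x hx
    rwa [Real.norm_eq_abs]
  have hsplit : ∫ x in U, ⟪ww P D j x, gradient a x⟫ =
      ∑ i, ∑ k, ∫ x in U, a x * P k i x * ⟪EE P DP Om j i x, D k x⟫ := by
    rw [hgeq]
    have e1 : ∀ x, a x * ∑ i, ⟪EE P DP Om j i x, ww P D i x⟫ =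
        ∑ i, ∑ k, a x * P k i x * ⟪EE P DP Om j i x, D k x⟫ := by
      intro x
      rw [Finset.mul_sum]
      refine Finset.sum_congr rfl fun i _ => ?_
      unfold ww
      rw [inner_sum, Finset.mul_sum]
      refine Finset.sum_congr rfl fun k _ => ?_
      rw [inner_smul_right]
      ring
    simp only [e1]
    rw [integral_finsetSum _ fun i _ => integrable_finsetSum _ fun k _ => hin k i]
    refine Finset.sum_congr rfl fun i _ => ?_
    rw [integral_finsetSum _ fun k _ => hin k i]
  -- one term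
  have hone : ∀ k i, |∫ x in U, a x * P k i x * ⟪EE P DP Om j i x, D k x⟫| ≤
      (C₂ * C₁ * Real.sqrt Q * Real.sqrt S) * e * M := by
    intro k i
    obtain ⟨c, hb, hbm⟩ := hmob (u k) (D k) M hM0 (hsys.wb k) (hmor k)
    set b : E n → ℝ := fun x => ζ x * (u k x - c) with hbdef
    set Db : E n → E n := dm ζ (fun x => u k x - c) (D k) with hDb
    set g : E n → ℝ := fun x => a x * P k i x with hg
    set Dg : E n → E n := fun x => a x • DP k i x + P k i x • gradient a x with hDg
    have hgoff : ∀ x, x ∉ closedBall (0 : E n) (3 / 4) → g x = 0 ∧ Dg x = 0 := by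
      intro x hx
      obtain ⟨h1, h2⟩ := grad_off has x hx
      constructor
      · rw [hg]; simp only [h1, zero_mul]
      · rw [hDg]; simp only [h1, h2, zero_smul, smul_zero, add_zero]
    have hgw : WC (3 / 4) g Dg := hE n (3 / 4) g Dg (by norm_num) (by norm_num) (hprod k i) hgoff
    have h3 := hI n (EE P DP Om j i) (hEE j i) (fun φ hφ => hgau.df j i φ
      ⟨hφ.1, hφ.2.1, subset_univ _⟩) (3 / 4) (fun x => u k x - c) g (D k) Dg (by norm_num)
      (by norm_num) (wb_sub hUm (hsys.wb k) c) hgw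
    set G : E n → E n := U.indicator (EE P DP Om j i) with hGdef
    have h4 : ∫ x in U, (u k x - c) * ⟪EE P DP Om j i x, Dg x⟫ = ∫ x, b x * ⟪G x, Dg x⟫ := by
      rw [← integral_indicator hUm]
      refine integral_congr_ae (Eventually.of_forall fun x => ?_)
      show U.indicator (fun x => (u k x - c) * ⟪EE P DP Om j i x, Dg x⟫) x = b x * ⟪G x, Dg x⟫
      by_cases hx : x ∈ U
      · rw [indicator_of_mem hx, hGdef, indicator_of_mem hx]
        by_cases hx2 : x ∈ closedBall (0 : E n) (3 / 4)
        · have h5 : ζ x = 1 := hζ.one x (closedBall_subset_ball (by norm_num) hx2)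
          rw [hbdef]; simp only [h5, one_mul]
        · rw [(hgoff x hx2).2, inner_zero_right, mul_zero, mul_zero]
      · rw [indicator_of_notMem hx, hGdef, indicator_of_notMem hx, inner_zero_left, mul_zero]
    have hG2 : MemLp G 2 volume := (memLp_indicator_iff_restrict hUm).2 (hEE j i)
    have hGoff : ∀ x, x ∉ closedBall (0 : E n) 1 → G x = 0 := by
      intro x hx
      rw [hGdef, indicator_of_notMem]
      exact fun h => hx (ball_subset_closedBall h)
    have hGdf : DF G := by
      intro φ hφ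
      rw [← hgau.df j i φ hφ, ← integral_indicator hUm]
      refine integral_congr_ae (Eventually.of_forall fun x => ?_)
      show fderiv ℝ φ x (G x) = U.indicator (fun x => fderiv ℝ φ x (EE P DP Om j i x)) x
      by_cases hx : x ∈ U
      · rw [indicator_of_mem hx, hGdef, indicator_of_mem hx]
      · rw [indicator_of_notMem hx, hGdef, indicator_of_notMem hx, map_zero]
    have h6 := htri b g Db G Dg (C₁ * M) (by positivity) (wc_mono (by norm_num) hb) hbm hG2
      hGoff hGdf (wc_mono (by norm_num) hgw)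
    -- the norms
    have h7 : ∫ x, ‖G x‖ ^ 2 ≤ Q * e ^ 2 := by
      have e1 : ∫ x, ‖G x‖ ^ 2 = ∫ x in U, ‖EE P DP Om j i x‖ ^ 2 := by
        rw [← integral_indicator hUm]
        refine integral_congr_ae (Eventually.of_forall fun x => ?_)
        show ‖G x‖ ^ 2 = U.indicator (fun x => ‖EE P DP Om j i x‖ ^ 2) x
        by_cases hx : x ∈ U
        · rw [indicator_of_mem hx, hGdef, indicator_of_mem hx]
        · rw [indicator_of_notMem hx, hGdef, indicator_of_notMem hx, norm_zero]; norm_num
      rw [e1]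
      refine le_trans ?_ (hgau.le1.trans hOm2)
      have e2 : ∀ i j, 0 ≤ ∫ x in U, ‖EE P DP Om i j x‖ ^ 2 :=
        fun i j => integral_nonneg fun x => by positivity
      refine le_trans ?_ (Finset.single_le_sum
        (f := fun i => ∑ j, ∫ x in U, ‖EE P DP Om i j x‖ ^ 2)
        (fun i _ => Finset.sum_nonneg fun j _ => e2 i j) (Finset.mem_univ j))
      exact Finset.single_le_sum (f := fun i => ∫ x in U, ‖EE P DP Om j i x‖ ^ 2)
        (fun i _ => e2 j i) (Finset.mem_univ i)
    have h8 : ∫ x, ‖Dg x‖ ^ 2 ≤ S := by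
      have e1 : ∫ x, ‖Dg x‖ ^ 2 = ∫ x in U, ‖Dg x‖ ^ 2 := by
        rw [← integral_indicator hUm]
        refine integral_congr_ae (Eventually.of_forall fun x => ?_)
        show ‖Dg x‖ ^ 2 = U.indicator (fun x => ‖Dg x‖ ^ 2) x
        by_cases hx : x ∈ U
        · rw [indicator_of_mem hx]
        · rw [indicator_of_notMem hx, (hgoff x fun h => hx (closedBall_subset_ball
            (by norm_num) h)).2, norm_zero]; norm_num
      have iDP : Integrable (fun x => ‖DP k i x‖ ^ 2) (volume.restrict U) :=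
        (hP1 k i).d2.norm.integrable_sq
      have iga : Integrable (fun x => ‖gradient a x‖ ^ 2) (volume.restrict U) :=
        haU.d2.norm.integrable_sq
      have iga2 : Integrable (fun x => ‖gradient a x‖ ^ 2) volume := by
        have := haw.wb.d2.norm.integrable_sq
        rwa [Measure.restrict_univ] at this
      have iDg : Integrable (fun x => ‖Dg x‖ ^ 2) (volume.restrict U) :=
        (hprod k i).d2.norm.integrable_sq
      have e2 : ∫ x in U, ‖Dg x‖ ^ 2 ≤
          ∫ x in U, (2 * A ^ 2 * ‖DP k i x‖ ^ 2 + 2 * ‖gradient a x‖ ^ 2) := by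
        refine integral_mono_ae iDg ((iDP.const_mul _).add (iga.const_mul _)) ?_
        filter_upwards [hae] with x hx
        have p1 : |P k i x| ≤ 1 := hx.1 k i
        have p2 : ‖Dg x‖ ≤ A * ‖DP k i x‖ + ‖gradient a x‖ := by
          refine (norm_add_le _ _).trans ?_
          rw [norm_smul, norm_smul, Real.norm_eq_abs, Real.norm_eq_abs]
          have q1 := mul_le_mul_of_nonneg_right (haA x) (norm_nonneg (DP k i x))
          have q2 := mul_le_mul_of_nonneg_right p1 (norm_nonneg (gradient a x))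
          linarith
        have p3 := pow_le_pow_left₀ (norm_nonneg _) p2 2
        have p4 := sq_nonneg (A * ‖DP k i x‖ - ‖gradient a x‖)
        show ‖Dg x‖ ^ 2 ≤ 2 * A ^ 2 * ‖DP k i x‖ ^ 2 + 2 * ‖gradient a x‖ ^ 2
        nlinarith
      have e3 : ∫ x in U, (2 * A ^ 2 * ‖DP k i x‖ ^ 2 + 2 * ‖gradient a x‖ ^ 2) =
          2 * A ^ 2 * (∫ x in U, ‖DP k i x‖ ^ 2) + 2 * ∫ x in U, ‖gradient a x‖ ^ 2 := by
        rw [integral_add (iDP.const_mul _) (iga.const_mul _), integral_const_mul,
          integral_const_mul]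
      have e4 : ∫ x in U, ‖DP k i x‖ ^ 2 ≤ 4 * Q := by
        have r1 : ∀ i j, 0 ≤ ∫ x in U, ‖DP i j x‖ ^ 2 :=
          fun i j => integral_nonneg fun x => by positivity
        have r2 : ∫ x in U, ‖DP k i x‖ ^ 2 ≤ ∑ i, ∑ j, ∫ x in U, ‖DP i j x‖ ^ 2 := by
          refine le_trans ?_ (Finset.single_le_sum
            (f := fun i => ∑ j, ∫ x in U, ‖DP i j x‖ ^ 2)
            (fun i _ => Finset.sum_nonneg fun j _ => r1 i j) (Finset.mem_univ k))
          exact Finset.single_le_sum (f := fun i => ∫ x in U, ‖DP k i x‖ ^ 2)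
            (fun i _ => r1 k i) (Finset.mem_univ i)
        have r3 := hgau.le2
        have r4 : Q * e ^ 2 ≤ Q := mul_le_of_le_one_right hQ0 (pow_le_one₀ he0 he1)
        linarith
      have e5 : ∫ x in U, ‖gradient a x‖ ^ 2 ≤ A :=
        (setIntegral_le_integral iga2 (Eventually.of_forall fun x => by positivity)).trans hag
      rw [e1]
      refine e2.trans ?_
      rw [e3, hS]
      have e6 := mul_le_mul_of_nonneg_left e4 (show 0 ≤ 2 * A ^ 2 by positivity)
      linarith
    have h9 : Real.sqrt (∫ x, ‖G x‖ ^ 2) ≤ Real.sqrt Q * e := by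
      refine (Real.sqrt_le_sqrt h7).trans (le_of_eq ?_)
      rw [Real.sqrt_mul hQ0, Real.sqrt_sq he0]
    have h10 : Real.sqrt (∫ x, ‖Dg x‖ ^ 2) ≤ Real.sqrt S := Real.sqrt_le_sqrt h8
    have h11 : ∫ x in U, a x * P k i x * ⟪EE P DP Om j i x, D k x⟫ =
        - ∫ x, b x * ⟪G x, Dg x⟫ := by
      rw [← h4, ← h3]
    rw [h11, abs_neg]
    refine h6.trans ?_
    calc C₂ * (C₁ * M) * Real.sqrt (∫ x, ‖G x‖ ^ 2) * Real.sqrt (∫ x, ‖Dg x‖ ^ 2)
        ≤ C₂ * (C₁ * M) * (Real.sqrt Q * e) * Real.sqrt S := by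
          refine mul_le_mul ?_ h10 (Real.sqrt_nonneg _) (by positivity)
          exact mul_le_mul_of_nonneg_left h9 (by positivity)
      _ = (C₂ * C₁ * Real.sqrt Q * Real.sqrt S) * e * M := by ring
  rw [hsplit]
  calc |∑ i, ∑ k, ∫ x in U, a x * P k i x * ⟪EE P DP Om j i x, D k x⟫|
      ≤ ∑ i : Fin m, ∑ k : Fin m, (C₂ * C₁ * Real.sqrt Q * Real.sqrt S) * e * M := by
        refine (Finset.abs_sum_le_sum_abs _ _).trans (Finset.sum_le_sum fun i _ => ?_)
        exact (Finset.abs_sum_le_sum_abs _ _).trans (Finset.sum_le_sum fun k _ => hone k i)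
    _ = m * (m * (C₂ * C₁ * Real.sqrt Q * Real.sqrt S)) * e * M := by
        simp only [Finset.sum_const, Finset.card_univ, Fintype.card_fin, nsmul_eq_mul]
        ring

end Pool.Agent.H50.RG
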