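import Pool.Agent.H48.RG.Targets

/-! Partial regularity of stationary harmonic maps (MP_2697e3_an), part D, row ITE: decay with the
exponent three quarters. -/

set_option autoImplicit false

namespace Pool.Agent.H50.RG

open MeasureTheory Metric Set Filter Topology Pool.Agent.H87.SN Pool.Agent.H48.RG
open scoped ContDiff RealInnerProductSpace ENNReal

/-- a ball in a ball has a smaller radius -/
theorem ball_radius {n : ℕ} (hn : 1 ≤ n) {y z : E n} {r s : ℝ} (hs : 0 < s)
    (h : ball z s ⊆ ball y r) : s ≤ r := by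
  obtain ⟨v, hv⟩ : ∃ v : E n, ‖v‖ = 1 :=
    ⟨EuclideanSpace.single (⟨0, hn⟩ : Fin n) (1 : ℝ), by simp⟩
  refine le_of_forall_lt fun t ht => ?_
  by_cases ht0 : t < 0
  · have hz : z ∈ ball y r := h (mem_ball_self hs)
    have : 0 < r := lt_of_le_of_lt dist_nonneg (mem_ball.1 hz)
    linarith
  push Not at ht0
  have h1 : z + t • v ∈ ball y r := by
    refine h ?_
    rw [mem_ball, dist_eq_norm, add_sub_cancel_left, norm_smul, hv, mul_one, Real.norm_eq_abs,
      abs_of_nonneg ht0]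
    exact ht
  have h2 : z - t • v ∈ ball y r := by
    refine h ?_
    rw [mem_ball, dist_eq_norm, sub_sub_cancel_left, norm_neg, norm_smul, hv, mul_one,
      Real.norm_eq_abs, abs_of_nonneg ht0]
    exact ht
  rw [mem_ball] at h1 h2
  have h3 : dist (z + t • v) (z - t • v) = 2 * t := by
    rw [dist_eq_norm]
    have : z + t • v - (z - t • v) = (2 * t) • v := by
      rw [mul_smul, two_smul]; abel
    rw [this, norm_smul, hv, mul_one, Real.norm_eq_abs, abs_of_nonneg (by positivity)]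
  have h4 := dist_triangle_right (z + t • v) (z - t • v) y
  linarith

/-- the first bound -/
theorem l1_l2 {n : ℕ} (hn : 1 ≤ n) {ε s : ℝ} (hε : 0 ≤ ε) (hs : 0 < s) (z : E n)
    (D : E n → E n) (hD : MemLp D 2 (volume.restrict (ball z s)))
    (he : ∫ x in ball z s, ‖D x‖ ^ 2 ≤ ε * (s ^ n / s ^ 2)) :
    ∫ x in ball z s, ‖D x‖ ≤ Real.sqrt ((volume (ball (0 : E n) 1)).toReal * ε) * s ^ (n - 1) := by
  have hfin : volume (ball z s) ≠ ⊤ := measure_ball_lt_top.ne
  have : IsFiniteMeasure (volume.restrict (ball z s)) := by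
    refine ⟨?_⟩
    rw [Measure.restrict_apply_univ]
    exact measure_ball_lt_top
  have hvol : (volume (ball z s)).toReal = s ^ n * (volume (ball (0 : E n) 1)).toReal := by
    rw [Measure.addHaar_ball_of_pos volume z hs, ENNReal.toReal_mul, ENNReal.toReal_ofReal (by positivity)]
    simp
  set om := (volume (ball (0 : E n) 1)).toReal with hom
  have om0 : 0 ≤ om := ENNReal.toReal_nonneg
  have h1 : MemLp (fun x => ‖D x‖) 2 (volume.restrict (ball z s)) := hD.norm
  have hint : Integrable (fun x => ‖D x‖) (volume.restrict (ball z s)) :=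
    h1.integrable (by norm_num)
  have hint2 : Integrable (fun x => ‖D x‖ ^ 2) (volume.restrict (ball z s)) := by
    have := h1.integrable_sq
    exact this
  have hI0 : 0 ≤ ∫ x in ball z s, ‖D x‖ := integral_nonneg fun x => norm_nonneg _
  have hJ0 : 0 ≤ ∫ x in ball z s, ‖D x‖ ^ 2 := integral_nonneg fun x => by positivity
  -- Cauchy-Schwarz by the square of `‖D‖ - c`
  have hcs : (∫ x in ball z s, ‖D x‖) ^ 2 ≤ (s ^ n * om) * ∫ x in ball z s, ‖D x‖ ^ 2 := by
    set I := ∫ x in ball z s, ‖D x‖ with hI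
    set J := ∫ x in ball z s, ‖D x‖ ^ 2 with hJ
    have hq : ∀ c : ℝ, 0 ≤ J - 2 * c * I + c ^ 2 * (s ^ n * om) := by
      intro c
      have e1 : ∫ x in ball z s, (‖D x‖ - c) ^ 2 = J - 2 * c * I + c ^ 2 * (s ^ n * om) := by
        have e2 : ∀ x, (‖D x‖ - c) ^ 2 = ‖D x‖ ^ 2 - 2 * c * ‖D x‖ + c ^ 2 := fun x => by ring
        simp only [e2]
        have i1 : Integrable (fun x => ‖D x‖ ^ 2 - 2 * c * ‖D x‖) (volume.restrict (ball z s)) :=
          hint2.sub (hint.const_mul (2 * c))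
        have i2 : Integrable (fun _ : E n => c ^ 2) (volume.restrict (ball z s)) :=
          integrable_const _
        rw [integral_add (f := fun x => ‖D x‖ ^ 2 - 2 * c * ‖D x‖) i1 i2,
          integral_sub hint2 (hint.const_mul (2 * c)), integral_const_mul, setIntegral_const,
          Measure.real, hvol, smul_eq_mul]
        ring
      rw [← e1]
      exact integral_nonneg fun x => sq_nonneg _
    by_cases hV : s ^ n * om = 0
    · have hI' : I = 0 := by
        by_contra hne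
        have hIpos : 0 < I := lt_of_le_of_ne hI0 (Ne.symm hne)
        have h5 := hq ((J + 1) / (2 * I))
        rw [hV, mul_zero, add_zero] at h5
        have h6 : 2 * ((J + 1) / (2 * I)) * I = J + 1 := by field_simp
        rw [h6] at h5
        linarith
      rw [hI', hV]; simp
    · have hVpos : 0 < s ^ n * om := lt_of_le_of_ne (by positivity) (Ne.symm hV)
      have h5 := hq (I / (s ^ n * om))
      have h6 : J - 2 * (I / (s ^ n * om)) * I + (I / (s ^ n * om)) ^ 2 * (s ^ n * om) =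
          J - I ^ 2 / (s ^ n * om) := by field_simp; ring
      rw [h6, sub_nonneg, div_le_iff₀ hVpos] at h5
      linarith
  have hpow : s ^ n * (s ^ n / s ^ 2) = (s ^ (n - 1)) ^ 2 := by
    obtain ⟨k, rfl⟩ : ∃ k, n = k + 1 := ⟨n - 1, by omega⟩
    rw [Nat.add_sub_cancel]
    field_simp
    ring
  have h7 : (∫ x in ball z s, ‖D x‖) ^ 2 ≤ (om * ε) * (s ^ (n - 1)) ^ 2 := by
    calc _ ≤ (s ^ n * om) * ∫ x in ball z s, ‖D x‖ ^ 2 := hcs
      _ ≤ (s ^ n * om) * (ε * (s ^ n / s ^ 2)) := mul_le_mul_of_nonneg_left he (by positivity)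
      _ = (om * ε) * (s ^ n * (s ^ n / s ^ 2)) := by ring
      _ = _ := by rw [hpow]
  have h8 : (∫ x in ball z s, ‖D x‖) ≤ Real.sqrt ((om * ε) * (s ^ (n - 1)) ^ 2) :=
    Real.le_sqrt_of_sq_le h7
  rwa [Real.sqrt_mul (by positivity), Real.sqrt_sq (by positivity)] at h8

theorem pf_ITE (hR : T_SRS) (hS : T_SCL) : T_ITE := by
  intro n m K hn hK
  obtain ⟨C₀, hC₀, hC⟩ := hS n m K hn hK
  have hC0 : 0 < C₀ := by linarith
  obtain ⟨a, ha⟩ : ∃ a : ℝ, a = 1 / (2 * C₀) := ⟨_, rfl⟩
  have ha0 : 0 < a := by rw [ha]; positivity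
  have ha2 : a ≤ 1 / 2 := by
    rw [ha, div_le_div_iff₀ (by positivity) (by norm_num)]; linarith
  have hCa : 2 * C₀ * a = 1 := by rw [ha]; field_simp
  obtain ⟨q, hq⟩ : ∃ q : ℝ, q = a ^ 4 := ⟨_, rfl⟩
  have hq0 : 0 < q := by rw [hq]; positivity
  have hq16 : q ≤ 1 / 16 := by
    rw [hq]
    calc a ^ 4 ≤ (1 / 2) ^ 4 := pow_le_pow_left₀ ha0.le ha2 4
      _ = 1 / 16 := by norm_num
  obtain ⟨θ, hθ⟩ : ∃ θ : ℝ, θ = 2 * q := ⟨_, rfl⟩
  have hθ0 : 0 < θ := by rw [hθ]; positivity
  have hθ4 : θ ≤ 1 / 4 := by rw [hθ]; linarith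
  have hCθ : C₀ * θ = a ^ 3 := by
    rw [hθ, hq]
    calc C₀ * (2 * a ^ 4) = (2 * C₀ * a) * a ^ 3 := by ring
      _ = a ^ 3 := by rw [hCa, one_mul]
  obtain ⟨ε, hε, hdec⟩ := hC θ hθ0 hθ4
  set M₀ : ℝ := Real.sqrt ((volume (ball (0 : E n) 1)).toReal * ε) with hM₀
  have hM0 : 0 ≤ M₀ := Real.sqrt_nonneg _
  refine ⟨ε, (2 / q) ^ (3 / 4 : ℝ) * M₀, hε, by positivity, ?_⟩
  intro x₀ R u D Om hR0 hsys hen k y hy s hs hsR
  -- the balls of radius `R/2`
  have hyR : ball y (R / 2) ⊆ ball x₀ R := by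
    intro x hx
    rw [mem_ball] at hx hy ⊢
    have := dist_triangle x y x₀
    linarith
  have hnn : ∀ (k : Fin m) (z : E n) (t : ℝ), 0 ≤ ∫ x in ball z t, ‖D k x‖ ^ 2 :=
    fun k z t => integral_nonneg fun x => by positivity
  have hbase : ∀ (k : Fin m) (z : E n) (t : ℝ), 0 < t → ball z t ⊆ ball x₀ R →
      ∫ x in ball z t, ‖D k x‖ ≤ M₀ * t ^ (n - 1) := by
    intro k z t ht hzt
    refine l1_l2 hn hε.le ht z (D k) ?_ ?_
    · exact (hsys.wb k).d2.mono_measure (Measure.restrict_mono hzt le_rfl)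
    · refine le_trans ?_ (hen z t ht hzt)
      exact Finset.single_le_sum (f := fun k => ∫ x in ball z t, ‖D k x‖ ^ 2)
        (fun k _ => hnn k z t) (Finset.mem_univ k)
  have hmor : ∀ j : ℕ, ∀ k, Mor (ball y (q ^ j * (R / 2))) ((a ^ 3) ^ j * M₀) (D k) := by
    intro j
    induction j with
    | zero =>
      intro k z t ht hzt
      rw [pow_zero, one_mul] at hzt ⊢
      exact hbase k z t ht (hzt.trans hyR)
    | succ j ih =>
      intro k z t ht hzt
      set r : ℝ := q ^ j * (R / 2) with hr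
      have hr0 : 0 < r := by positivity
      have hrR : r ≤ R / 2 := by
        rw [hr]
        refine mul_le_of_le_one_left (by positivity) (pow_le_one₀ hq0.le (by linarith))
      have hqr : q ^ (j + 1) * (R / 2) = q * r := by rw [hr]; ring
      rw [hqr] at hzt
      have htr : t ≤ q * r := ball_radius hn ht hzt
      have hzy : dist z y < q * r := mem_ball.1 (hzt (mem_ball_self ht))
      have hsub : ball z (t / θ) ⊆ ball y r := by
        intro x hx
        rw [mem_ball] at hx ⊢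
        have h1 := dist_triangle x z y
        have h2 : t / θ ≤ r / 2 := by
          rw [div_le_iff₀ hθ0, hθ]; linarith
        have h3 : q * r ≤ (1 / 16) * r := mul_le_mul_of_nonneg_right hq16 hr0.le
        linarith
      have hsub2 : ball z (t / θ) ⊆ ball x₀ R :=
        hsub.trans ((ball_subset_ball hrR).trans hyR)
      have htθ : 0 < t / θ := by positivity
      have h4 := hdec z (t / θ) u D Om ((a ^ 3) ^ j * M₀) htθ
        (hR n m K x₀ z R (t / θ) u D Om hsys hsub2) (by positivity)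
        (fun k w b hb hwb => ih k w b hb (hwb.trans hsub)) (hen z (t / θ) htθ hsub2) k
      have h5 : θ * (t / θ) = t := by field_simp
      rw [h5] at h4
      refine h4.trans (le_of_eq ?_)
      have h6 : θ ^ n * (t / θ) ^ (n - 1) = θ * t ^ (n - 1) := by
        obtain ⟨i, rfl⟩ : ∃ i, n = i + 1 := ⟨n - 1, by omega⟩
        rw [Nat.add_sub_cancel, pow_succ, div_pow]
        field_simp
      calc C₀ * θ ^ n * ((a ^ 3) ^ j * M₀) * (t / θ) ^ (n - 1)
          = C₀ * (θ ^ n * (t / θ) ^ (n - 1)) * ((a ^ 3) ^ j * M₀) := by ring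
        _ = (C₀ * θ) * t ^ (n - 1) * ((a ^ 3) ^ j * M₀) := by rw [h6]; ring
        _ = (a ^ 3) ^ (j + 1) * M₀ * t ^ (n - 1) := by rw [hCθ, pow_succ]; ring
  -- the choice of `j`
  have hx0 : 0 < 2 * s / R := by positivity
  have hx1 : 2 * s / R ≤ 1 := by
    rw [div_le_one hR0]; linarith
  obtain ⟨j, hj1, hj2⟩ := exists_nat_pow_near_of_lt_one hx0 hx1 hq0 (by linarith)
  have hsj : s ≤ q ^ j * (R / 2) := by
    rw [div_le_iff₀ hR0] at hj2
    linarith
  have h1 := hmor j k y s hs (ball_subset_ball hsj)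
  refine h1.trans ?_
  refine mul_le_mul_of_nonneg_right ?_ (by positivity)
  have h2 : (a ^ 3) ^ j = (q ^ j) ^ (3 / 4 : ℝ) := by
    rw [hq, ← pow_mul, ← pow_mul, ← Real.rpow_natCast a (3 * j), ← Real.rpow_natCast a (4 * j),
      ← Real.rpow_mul ha0.le]
    congr 1
    push_cast
    ring
  have h3 : q ^ j ≤ (2 / q) * (s / R) := by
    rw [pow_succ] at hj1
    have h4 : q ^ j * q ≤ 2 * s / R := hj1.le
    have h5 : (2 / q) * (s / R) = (2 * s / R) / q := by field_simp
    rw [h5, le_div_iff₀ hq0]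
    exact h4
  rw [h2]
  calc (q ^ j) ^ (3 / 4 : ℝ) * M₀ ≤ ((2 / q) * (s / R)) ^ (3 / 4 : ℝ) * M₀ := by
        refine mul_le_mul_of_nonneg_right ?_ hM0
        exact Real.rpow_le_rpow (by positivity) h3 (by norm_num)
    _ = (2 / q) ^ (3 / 4 : ℝ) * M₀ * (s / R) ^ (3 / 4 : ℝ) := by
        rw [Real.mul_rpow (by positivity) (by positivity)]; ring

end Pool.Agent.H50.RG
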